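import Mathlib

/-!
# Volume under equivariant homotheties (for project PSC2 of helper119, by helper619)
-/

set_option autoImplicit false
set_option linter.all false

namespace Pool.Agent.N619.PSC

open MeasureTheory Topology Filter
open scoped ENNReal NNReal

/-- the infimum of the one-dimensional Hausdorff measures of the Borel sets which meet all orbits -/
noncomputable def vol' (G X : Type) [Group G] [MetricSpace X] [MulAction G X] : ℝ≥0∞ :=
  letI : MeasurableSpace X := borel X
  haveI : BorelSpace X := ⟨rfl⟩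
  ⨅ K ∈ {K : Set X | MeasurableSet K ∧ ∀ x : X, ∃ g : G, g • x ∈ K},
    Measure.hausdorffMeasure 1 K

theorem vol'_le {G X Y : Type} [Group G] [MetricSpace X] [MulAction G X] [MetricSpace Y]
    [MulAction G Y] (c : ℝ) (f : X ≃ Y) (hc : 0 < c)
    (hf : ∀ x y, dist (f x) (f y) = c * dist x y) (hg : ∀ (g : G) x, f (g • x) = g • f x) :
    vol' G Y ≤ ENNReal.ofReal c * vol' G X := by
  letI : MeasurableSpace X := borel X
  haveI : BorelSpace X := ⟨rfl⟩
  letI : MeasurableSpace Y := borel Y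
  haveI : BorelSpace Y := ⟨rfl⟩
  have hLip : LipschitzWith (Real.toNNReal c) f := by
    apply LipschitzWith.of_dist_le_mul
    intro x y
    rw [hf, Real.coe_toNNReal c hc.le]
  have hLip' : LipschitzWith (Real.toNNReal c⁻¹) f.symm := by
    apply LipschitzWith.of_dist_le_mul
    intro x y
    have h1 := hf (f.symm x) (f.symm y)
    rw [f.apply_symm_apply, f.apply_symm_apply] at h1
    rw [Real.coe_toNNReal _ (inv_nonneg.2 hc.le), h1, ← mul_assoc, inv_mul_cancel₀ hc.ne', one_mul]
  have hc0 : ENNReal.ofReal c ≠ 0 := by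
    rw [Ne, ENNReal.ofReal_eq_zero, not_le]
    exact hc
  have hct : ENNReal.ofReal c ≠ ∞ := ENNReal.ofReal_ne_top
  have key : ∀ K : Set X, MeasurableSet K → (∀ x : X, ∃ g : G, g • x ∈ K) →
      vol' G Y ≤ ENNReal.ofReal c * Measure.hausdorffMeasure 1 K := by
    intro K hK hKo
    have h1 : MeasurableSet (f '' K) := by
      rw [f.image_eq_preimage_symm]
      exact hLip'.continuous.measurable hK
    have h2 : ∀ y : Y, ∃ g : G, g • y ∈ f '' K := by
      intro y
      obtain ⟨g, hgK⟩ := hKo (f.symm y)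
      refine ⟨g, g • f.symm y, hgK, ?_⟩
      rw [hg, f.apply_symm_apply]
    calc vol' G Y ≤ Measure.hausdorffMeasure 1 (f '' K) := iInf₂_le (f '' K) ⟨h1, h2⟩
      _ ≤ ((Real.toNNReal c : ℝ≥0) : ℝ≥0∞) ^ (1 : ℝ) * Measure.hausdorffMeasure 1 K :=
        (hLip.lipschitzOnWith (s := K)).hausdorffMeasure_image_le zero_le_one
      _ = ENNReal.ofReal c * Measure.hausdorffMeasure 1 K := by
        rw [ENNReal.rpow_one]
        rfl
  have h3 : (ENNReal.ofReal c)⁻¹ * vol' G Y ≤ vol' G X := by
    unfold vol'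
    refine le_iInf₂ fun K hK => ?_
    rw [ENNReal.mul_le_iff_le_inv (ENNReal.inv_ne_zero.2 hct) (ENNReal.inv_ne_top.2 hc0), inv_inv]
    exact key K hK.1 hK.2
  rw [ENNReal.mul_le_iff_le_inv (ENNReal.inv_ne_zero.2 hct) (ENNReal.inv_ne_top.2 hc0),
    inv_inv] at h3
  exact h3

theorem vol'_eq {G X Y : Type} [Group G] [MetricSpace X] [MulAction G X] [MetricSpace Y]
    [MulAction G Y] (c : ℝ) (f : X ≃ Y) (hc : 0 < c)
    (hf : ∀ x y, dist (f x) (f y) = c * dist x y) (hg : ∀ (g : G) x, f (g • x) = g • f x) :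
    vol' G Y = ENNReal.ofReal c * vol' G X := by
  refine le_antisymm (vol'_le c f hc hf hg) ?_
  have h1 : ∀ x y, dist (f.symm x) (f.symm y) = c⁻¹ * dist x y := by
    intro x y
    have h1 := hf (f.symm x) (f.symm y)
    rw [f.apply_symm_apply, f.apply_symm_apply] at h1
    rw [h1, ← mul_assoc, inv_mul_cancel₀ hc.ne', one_mul]
  have h2 : ∀ (g : G) y, f.symm (g • y) = g • f.symm y := by
    intro g y
    rw [f.symm_apply_eq, hg, f.apply_symm_apply]
  have h3 := vol'_le (G := G) c⁻¹ f.symm (inv_pos.2 hc) h1 h2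
  calc ENNReal.ofReal c * vol' G X ≤ ENNReal.ofReal c * (ENNReal.ofReal c⁻¹ * vol' G Y) := by
        gcongr
    _ = vol' G Y := by
        rw [← mul_assoc, ← ENNReal.ofReal_mul hc.le, mul_inv_cancel₀ hc.ne', ENNReal.ofReal_one,
          one_mul]

end Pool.Agent.N619.PSC
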