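import Pool.Agent.N119.PS.Stm2
import Pool.Agent.N619.PSC.Vol0

/-!
# PSC2/VOL (helper619): behaviour of the volume under equivariant homotheties
-/

set_option autoImplicit false

namespace Pool.Agent.N619.PSC.VOL

theorem t : Pool.Agent.N119.PS.S_VOL := by
  intro N A B c f hc hf hg
  exact vol'_eq (G := FreeGroup (Fin N)) c f hc hf hg

end Pool.Agent.N619.PSC.VOL
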